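import Pool.Agent.P8H63.KS.Inst2
import Pool.Agent.W332.OK.Final

set_option autoImplicit false
set_option linter.unusedSectionVars false

/-!
# Singular matrices of logarithms: the complex and the `p`-adic case
-/

namespace Pool.Agent.P8H63.KS

open Module
open Pool.Agent.W332.OK
open Pool.Agent.W254.PA (Hyp LtE logs hyp_padic)

section inst

variable {E : Type*} [Field E] [CharZero E] [IsAlgClosed E]

variable (Λ : Submodule ℚ E) (hB : ∀ (d : ℕ) (b : Fin d → E), (∀ k, b k ∈ Λ) →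
  LinearIndependent ℚ b → LinearIndependent (algebraicClosure ℚ E) b)

include hB

theorem final_aux {n : ℕ} (V : Submodule (algebraicClosure ℚ E) E) (hΛV : ∀ z ∈ Λ, z ∈ V)
    (hH : Hyp V) (M : Matrix (Fin n) (Fin n) E) (hM : ∀ i j, M i j ∈ Λ)
    (ξ : Fin n → E) (hξ : ξ ≠ 0) (hker : ∀ i, ∑ j, M i j * ξ j = 0)
    (hn : (finrank (algebraicClosure ℚ E) (Submodule.span (algebraicClosure ℚ E) (Set.range ξ)) - 1) *
      finrank ℚ (Submodule.span ℚ (Set.range ξ)) < n) :
    ∃ w v : Fin n → ℚ, w ≠ 0 ∧ v ≠ 0 ∧ ∑ i, ∑ j, ((w i : ℚ) : E) * M i j * ((v j : ℚ) : E) = 0 := by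
  by_contra hcon
  have hno : ∀ w v : Fin n → ℚ, w ≠ 0 → v ≠ 0 →
      ∑ i, ∑ j, ((w i : ℚ) : E) * M i j * ((v j : ℚ) : E) ≠ 0 :=
    fun w v hw hv h => hcon ⟨w, v, hw, hv, h⟩
  exact absurd (main_ks Λ hB V hΛV hH M hM hno ξ hξ hker) (not_le.2 hn)

/-- **Main theorem.** Also for left kernel vectors. -/
theorem final {n : ℕ} (V : Submodule (algebraicClosure ℚ E) E) (hΛV : ∀ z ∈ Λ, z ∈ V)
    (hH : Hyp V) (M : Matrix (Fin n) (Fin n) E) (hM : ∀ i j, M i j ∈ Λ)
    (ξ : Fin n → E) (hξ : ξ ≠ 0) (hker : M.mulVec ξ = 0 ∨ M.vecMul ξ = 0)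
    (hn : (finrank (algebraicClosure ℚ E) (Submodule.span (algebraicClosure ℚ E) (Set.range ξ)) - 1) *
      finrank ℚ (Submodule.span ℚ (Set.range ξ)) < n) :
    ∃ w v : Fin n → ℚ, w ≠ 0 ∧ v ≠ 0 ∧ ∑ i, ∑ j, ((w i : ℚ) : E) * M i j * ((v j : ℚ) : E) = 0 := by
  rcases hker with h | h
  · exact final_aux Λ hB V hΛV hH M hM ξ hξ (fun i => congrFun h i) hn
  · obtain ⟨w, v, hw, hv, h1⟩ := final_aux Λ hB V hΛV hH M.transpose (fun i j => hM j i)
      ξ hξ (fun i => by
        have h2 := congrFun h i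
        rw [Matrix.vecMul, dotProduct, Pi.zero_apply] at h2
        rw [← h2]
        refine Finset.sum_congr rfl fun j _ => ?_
        rw [Matrix.transpose_apply, mul_comm]) hn
    refine ⟨v, w, hv, hw, ?_⟩
    rw [← h1, Finset.sum_comm]
    refine Finset.sum_congr rfl fun i _ => Finset.sum_congr rfl fun j _ => ?_
    rw [Matrix.transpose_apply]
    ring

end inst

section complex

open Pool.Agent.H301R2.SSE (QB Lt Lg mem_Lg)

theorem complex_case {n : ℕ} (M : Matrix (Fin n) (Fin n) ℂ)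
    (hM : ∀ i j, IsAlgebraic ℚ (Complex.exp (M i j)))
    (ξ : Fin n → ℂ) (hξ : ξ ≠ 0) (hker : M.mulVec ξ = 0 ∨ M.vecMul ξ = 0)
    (hn : (finrank (algebraicClosure ℚ ℂ) (Submodule.span (algebraicClosure ℚ ℂ) (Set.range ξ)) - 1) *
      finrank ℚ (Submodule.span ℚ (Set.range ξ)) < n) :
    ∃ w v : Fin n → ℚ, w ≠ 0 ∧ v ≠ 0 ∧ ∑ i, ∑ j, ((w i : ℚ) : ℂ) * M i j * ((v j : ℚ) : ℂ) = 0 := by
  refine final Lg ?_ Lt ?_ ?_ M (fun i j => hM i j) ξ hξ hker hn
  · intro d b hb hli
    have h1 := Pool.Agent.W254.HP.opt_indep b (fun k => hb k) hli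
    exact h1.comp some (Option.some_injective _)
  · intro z hz
    exact Submodule.subset_span (Or.inr hz)
  · intro d l x a hx ha hxa hcol
    exact Pool.Agent.W254.HP.hyperplane d l x a hx ha hxa hcol

end complex

section padic

open Pool.Agent.W245.PB (IsIwasawaLog)

variable {p : ℕ} [Fact p.Prime] {L : PadicAlgCl p → PadicAlgCl p} (hL : IsIwasawaLog p L)

include hL in
theorem padic_case {n : ℕ} (M : Matrix (Fin n) (Fin n) (PadicAlgCl p))
    (hM : ∀ i j, ∃ α : PadicAlgCl p, α ≠ 0 ∧ IsAlgebraic ℚ α ∧ M i j = L α)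
    (ξ : Fin n → PadicAlgCl p) (hξ : ξ ≠ 0) (hker : M.mulVec ξ = 0 ∨ M.vecMul ξ = 0)
    (hn : (finrank (algebraicClosure ℚ (PadicAlgCl p))
      (Submodule.span (algebraicClosure ℚ (PadicAlgCl p)) (Set.range ξ)) - 1) *
      finrank ℚ (Submodule.span ℚ (Set.range ξ)) < n) :
    ∃ w v : Fin n → ℚ, w ≠ 0 ∧ v ≠ 0 ∧
      ∑ i, ∑ j, ((w i : ℚ) : PadicAlgCl p) * M i j * ((v j : ℚ) : PadicAlgCl p) = 0 := by
  refine final (logSp hL) ?_ (LtE (logs L)) ?_ (hyp_padic hL) M (fun i j => hM i j) ξ hξ hker hn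
  · intro d b hb hli
    choose α hα hα' hbα using hb
    have h0 : b = fun k => L (α k) := funext hbα
    rw [h0] at hli ⊢
    have h1 := Pool.Agent.W254.PA.optP_indep hL α hα hα' hli
    exact h1.comp some (Option.some_injective _)
  · intro z hz
    exact Submodule.subset_span (Or.inr hz)

end padic

section field

/-- the dimensions for coordinates in `K x_1 + ... + K x_s` -/
theorem dim_field {E : Type} [Field E] [CharZero E] {n : ℕ} (K : Type) [Field K] [NumberField K]
    (ι : K →+* E) (s : ℕ) (a : Fin n → Fin s → K) (x : Fin s → E) (ξ : Fin n → E)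
    (hrep : ∀ i, ξ i = ∑ t, ι (a i t) * x t) (hn : s * (s - 1) * finrank ℚ K < n) :
    (finrank (algebraicClosure ℚ E) (Submodule.span (algebraicClosure ℚ E) (Set.range ξ)) - 1) *
      finrank ℚ (Submodule.span ℚ (Set.range ξ)) < n := by
  classical
  have halg : ∀ k : K, ι k ∈ algebraicClosure ℚ E := fun k => mem_algebraicClosure_iff.2
    ((Algebra.IsAlgebraic.isAlgebraic (R := ℚ) k).algHom (RingHom.toRatAlgHom ι))
  have h1 : finrank (algebraicClosure ℚ E)
      (Submodule.span (algebraicClosure ℚ E) (Set.range ξ)) ≤ s := by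
    have hle : Submodule.span (algebraicClosure ℚ E) (Set.range ξ) ≤
        Submodule.span (algebraicClosure ℚ E) (Set.range x) := by
      rw [Submodule.span_le]
      rintro _ ⟨i, rfl⟩
      rw [hrep i]
      refine Submodule.sum_mem _ fun t _ => ?_
      have h2 : ι (a i t) * x t = (⟨ι (a i t), halg _⟩ : algebraicClosure ℚ E) • x t := rfl
      rw [h2]
      exact Submodule.smul_mem _ _ (Submodule.subset_span ⟨t, rfl⟩)
    have hfd : FiniteDimensional (algebraicClosure ℚ E)
        (Submodule.span (algebraicClosure ℚ E) (Set.range x)) :=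
      FiniteDimensional.span_of_finite _ (Set.finite_range x)
    refine (Submodule.finrank_mono hle).trans ?_
    have h2 := finrank_range_le_card (R := algebraicClosure ℚ E) x
    rwa [Set.finrank, Fintype.card_fin] at h2
  have h2 : finrank ℚ (Submodule.span ℚ (Set.range ξ)) ≤ s * finrank ℚ K := by
    let b := finBasis ℚ K
    let f : Fin s × Fin (finrank ℚ K) → E := fun q => ι (b q.2) * x q.1
    have hle : Submodule.span ℚ (Set.range ξ) ≤ Submodule.span ℚ (Set.range f) := by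
      rw [Submodule.span_le]
      rintro _ ⟨i, rfl⟩
      rw [hrep i]
      refine Submodule.sum_mem _ fun t _ => ?_
      have h3 : ι (a i t) * x t = ∑ k, (b.repr (a i t) k) • f (t, k) := by
        conv_lhs => rw [← b.sum_repr (a i t)]
        rw [map_sum, Finset.sum_mul]
        refine Finset.sum_congr rfl fun k _ => ?_
        rw [map_rat_smul, smul_mul_assoc]
      rw [h3]
      exact Submodule.sum_mem _ fun k _ => Submodule.smul_mem _ _ (Submodule.subset_span ⟨(t, k), rfl⟩)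
    have hfd : FiniteDimensional ℚ (Submodule.span ℚ (Set.range f)) :=
      FiniteDimensional.span_of_finite _ (Set.finite_range f)
    refine (Submodule.finrank_mono hle).trans ?_
    have h4 := finrank_range_le_card (R := ℚ) f
    rwa [Set.finrank, Fintype.card_prod, Fintype.card_fin, Fintype.card_fin] at h4
  refine lt_of_le_of_lt (Nat.mul_le_mul (Nat.sub_le_sub_right h1 1) h2) ?_
  calc (s - 1) * (s * finrank ℚ K) = s * (s - 1) * finrank ℚ K := by ring
    _ < n := hn

end field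

end Pool.Agent.P8H63.KS
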