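import Pool.Agent.P8H63.KS.Rep
import Pool.Agent.W332.OK.Inst

set_option autoImplicit false
set_option linter.unusedSectionVars false

/-!
# Singular matrices with a kernel vector in an `s`-dimensional space defined over a number field
-/

namespace Pool.Agent.P8H63.KS

open Module
open Pool.Agent.W332.OK
open Pool.Agent.W254.PA (Hyp)

section inst

variable {E : Type*} [Field E] [CharZero E] [IsAlgClosed E]

/-- The rational hull: `ξ` is a combination of `s` vectors of a rational space `R` of dimension at most `m`,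
where `s` and `m` are the dimensions of the spaces spanned by the coordinates over the algebraic
numbers and over `ℚ`. -/
theorem exists_rep {n : ℕ} (ξ : Fin n → E) :
    ∃ R : Submodule (algebraicClosure ℚ E) (Fin n → algebraicClosure ℚ E),
      (∀ σ : algebraicClosure ℚ E ≃ₐ[ℚ] algebraicClosure ℚ E, tw σ R ≤ R) ∧
      finrank (algebraicClosure ℚ E) R ≤ finrank ℚ (Submodule.span ℚ (Set.range ξ)) ∧
      RepA R ξ (finrank (algebraicClosure ℚ E)
        (Submodule.span (algebraicClosure ℚ E) (Set.range ξ))) := by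
  classical
  have : FiniteDimensional ℚ (Submodule.span ℚ (Set.range ξ)) :=
    FiniteDimensional.span_of_finite ℚ (Set.finite_range ξ)
  have : FiniteDimensional (algebraicClosure ℚ E)
      (Submodule.span (algebraicClosure ℚ E) (Set.range ξ)) :=
    FiniteDimensional.span_of_finite _ (Set.finite_range ξ)
  let y := finBasis ℚ (Submodule.span ℚ (Set.range ξ))
  let x := finBasis (algebraicClosure ℚ E) (Submodule.span (algebraicClosure ℚ E) (Set.range ξ))
  have hQ : ∀ i, ξ i ∈ Submodule.span ℚ (Set.range ξ) := fun i => Submodule.subset_span ⟨i, rfl⟩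
  have hK : ∀ i, ξ i ∈ Submodule.span (algebraicClosure ℚ E) (Set.range ξ) :=
    fun i => Submodule.subset_span ⟨i, rfl⟩
  have hQK : ∀ z ∈ Submodule.span ℚ (Set.range ξ),
      z ∈ Submodule.span (algebraicClosure ℚ E) (Set.range ξ) := by
    intro z hz
    exact Submodule.span_subset_span ℚ (algebraicClosure ℚ E) (Set.range ξ) hz
  let q : Fin (finrank ℚ (Submodule.span ℚ (Set.range ξ))) → Fin n → algebraicClosure ℚ E :=
    fun k i => algebraMap ℚ (algebraicClosure ℚ E) (y.repr ⟨ξ i, hQ i⟩ k)
  refine ⟨Submodule.span (algebraicClosure ℚ E) (Set.range q), ?_, ?_, ?_⟩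
  · intro σ z hz
    have key : ∀ y ∈ Submodule.span (algebraicClosure ℚ E) (Set.range q),
        (fun i => σ (y i)) ∈ Submodule.span (algebraicClosure ℚ E) (Set.range q) := by
      intro y hy
      induction hy using Submodule.span_induction with
      | mem y hy =>
        obtain ⟨k, rfl⟩ := hy
        have h1 : (fun i => σ (q k i)) = q k := by
          funext i
          exact AlgEquiv.commutes σ _
        rw [h1]
        exact Submodule.subset_span ⟨k, rfl⟩
      | zero =>
        simp only [Pi.zero_apply, map_zero]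
        exact Submodule.zero_mem _
      | add y z _ _ hy hz =>
        simp only [Pi.add_apply, map_add]
        exact Submodule.add_mem _ hy hz
      | smul c y _ hy =>
        simp only [Pi.smul_apply, smul_eq_mul, map_mul]
        exact Submodule.smul_mem _ (σ c) hy
    have h1 := key _ (mem_tw.1 hz)
    simpa only [AlgEquiv.apply_symm_apply] using h1
  · have h2 := finrank_range_le_card (R := algebraicClosure ℚ E) q
    rwa [Set.finrank, Fintype.card_fin] at h2
  · refine ⟨fun t => (x t : E), fun t i => x.repr ⟨ξ i, hK i⟩ t, fun t => ?_, fun i => ?_⟩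
    · have h1 : (fun i => x.repr ⟨ξ i, hK i⟩ t) =
          ∑ k, (x.repr ⟨(y k : E), hQK _ (y k).2⟩ t) • q k := by
        funext i
        rw [Finset.sum_apply]
        have h2 : (⟨ξ i, hK i⟩ : Submodule.span (algebraicClosure ℚ E) (Set.range ξ)) =
            ∑ k, q k i • (⟨(y k : E), hQK _ (y k).2⟩ :
              Submodule.span (algebraicClosure ℚ E) (Set.range ξ)) := by
          apply Subtype.ext
          have h3 := congrArg (fun z : Submodule.span ℚ (Set.range ξ) => (z : E))
            (y.sum_repr ⟨ξ i, hQ i⟩)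
          simp only [Submodule.coe_sum, Submodule.coe_smul] at h3 ⊢
          rw [← h3]
          refine Finset.sum_congr rfl fun k _ => ?_
          rw [algebraMap_smul]
        rw [h2, map_sum, Finsupp.finsetSum_apply]
        refine Finset.sum_congr rfl fun k _ => ?_
        rw [map_smul, Finsupp.smul_apply, Pi.smul_apply, smul_eq_mul, smul_eq_mul, mul_comm]
      beta_reduce
      rw [h1]
      exact Submodule.sum_mem _ fun k _ => Submodule.smul_mem _ _ (Submodule.subset_span ⟨k, rfl⟩)
    · have h3 := congrArg (fun z : Submodule.span (algebraicClosure ℚ E) (Set.range ξ) => (z : E))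
        (x.sum_repr ⟨ξ i, hK i⟩)
      simp only [Submodule.coe_sum, Submodule.coe_smul] at h3
      exact h3.symm

variable (Λ : Submodule ℚ E) (hB : ∀ (d : ℕ) (b : Fin d → E), (∀ k, b k ∈ Λ) →
  LinearIndependent ℚ b → LinearIndependent (algebraicClosure ℚ E) b)

include hB

/-- **Main theorem, abstract form.** -/
theorem main_ks {n : ℕ} (V : Submodule (algebraicClosure ℚ E) E) (hΛV : ∀ z ∈ Λ, z ∈ V)
    (hH : Hyp V) (M : Matrix (Fin n) (Fin n) E) (hM : ∀ i j, M i j ∈ Λ)
    (hno : ∀ w v : Fin n → ℚ, w ≠ 0 → v ≠ 0 → ∑ i, ∑ j, ((w i : ℚ) : E) * M i j * ((v j : ℚ) : E) ≠ 0)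
    (ξ : Fin n → E) (hξ : ξ ≠ 0) (hker : ∀ i, ∑ j, M i j * ξ j = 0) :
    n ≤ (finrank (algebraicClosure ℚ E) (Submodule.span (algebraicClosure ℚ E) (Set.range ξ)) - 1) *
      finrank ℚ (Submodule.span ℚ (Set.range ξ)) := by
  classical
  have hsm : ∀ (c : algebraicClosure ℚ E) (z : E), c • z = (c : E) * z := fun c z => rfl
  obtain ⟨A, hAst, hAm, hArep⟩ := exists_rep ξ
  obtain ⟨s, hs⟩ : ∃ s, s = finrank (algebraicClosure ℚ E)
    (Submodule.span (algebraicClosure ℚ E) (Set.range ξ)) := ⟨_, rfl⟩
  obtain ⟨mm, hmm⟩ : ∃ mm, mm = finrank ℚ (Submodule.span ℚ (Set.range ξ)) := ⟨_, rfl⟩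
  rw [← hs] at hArep
  rw [← hmm] at hAm
  rw [← hs, ← hmm]
  obtain ⟨t, hts, ht1, z, e, heA, hz, hzli, heli⟩ := exists_min_rep A ξ hξ (s := s) hArep
  have hno' : ∀ w v : Fin n → ℚ, w ≠ 0 → v ≠ 0 →
      bil M (fun i => algebraMap ℚ (algebraicClosure ℚ E) (w i))
        (fun i => algebraMap ℚ (algebraicClosure ℚ E) (v i)) ≠ 0 := by
    intro w v hw hv
    have h2 := hno w v hw hv
    rw [bil_apply]
    have h3 : ∀ q : ℚ, ((algebraMap ℚ (algebraicClosure ℚ E) q : algebraicClosure ℚ E) : E) =
        (q : E) := fun q => by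
      rw [eq_ratCast]; push_cast; rfl
    simpa only [h3] using h2
  have hbe := bil_equiv Λ hB M hM
  -- the relation
  have hk : ∀ w, ∑ k, z k * bil M w (e k) = 0 := by
    intro w
    have h1 : ∑ k, z k * bil M w (e k) = ∑ i, (w i : E) * ∑ j, M i j * ξ j := by
      have h2 : ∀ k, z k * bil M w (e k) = ∑ i, ∑ j, z k * ((w i : E) * M i j * (e k j : E)) := by
        intro k
        rw [bil_apply, Finset.mul_sum]
        exact Finset.sum_congr rfl fun i _ => Finset.mul_sum _ _ _
      rw [Finset.sum_congr rfl (fun k _ => h2 k), Finset.sum_comm]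
      refine Finset.sum_congr rfl fun i _ => ?_
      rw [Finset.sum_comm, Finset.mul_sum]
      refine Finset.sum_congr rfl fun j _ => ?_
      rw [hz j, Finset.mul_sum, Finset.mul_sum]
      refine Finset.sum_congr rfl fun k _ => ?_
      rw [hsm]
      ring
    rw [h1]
    refine Finset.sum_eq_zero fun i _ => ?_
    rw [hker i, mul_zero]
  set U : Submodule (algebraicClosure ℚ E) (Fin n → algebraicClosure ℚ E) :=
    Submodule.span (algebraicClosure ℚ E) (Set.range e) with hU
  have hUA : U ≤ A := by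
    rw [hU, Submodule.span_le]
    rintro _ ⟨k, rfl⟩
    exact heA k
  have hUt : finrank (algebraicClosure ℚ E) U = t := by
    rw [hU, finrank_span_eq_card heli, Fintype.card_fin]
  have hU0 : U ≠ ⊥ := by
    intro h
    rw [h, finrank_bot] at hUt
    omega
  have hNU : ∀ w, w ∈ NN (bil M) U ↔ ∀ k, bil M w (e k) = 0 := by
    intro w
    constructor
    · intro h k
      exact h _ (Submodule.subset_span ⟨k, rfl⟩)
    · intro h y hy
      induction hy using Submodule.span_induction with
      | mem y hy =>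
        obtain ⟨k, rfl⟩ := hy
        exact h k
      | zero => exact map_zero _
      | add y y' _ _ hy hy' => rw [map_add, hy, hy', add_zero]
      | smul c y _ hy => rw [map_smul, hy, smul_zero]
  -- the hyperplane theorem
  let T : (Fin n → algebraicClosure ℚ E) →ₗ[algebraicClosure ℚ E] (Fin t → E) :=
    LinearMap.pi (fun k => (bil M).flip (e k))
  have hT : ∀ w k, T w k = bil M w (e k) := fun w k => rfl
  have hkerT : LinearMap.ker T = NN (bil M) U := by
    ext w
    rw [LinearMap.mem_ker, hNU]
    exact ⟨fun h k => congrFun h k, fun h => funext h⟩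
  have hrn := LinearMap.finrank_range_add_finrank_ker T
  rw [hkerT, finrank_fin_fun] at hrn
  have hr : finrank (algebraicClosure ℚ E) (LinearMap.range T) ≤ t * (t - 1) := by
    let bT := Module.finBasis (algebraicClosure ℚ E) (LinearMap.range T)
    have hcol : ∀ j, ∃ w, T w = (bT j : Fin t → E) := fun j => (bT j).2
    choose w hw using hcol
    refine hH t _ z (fun i j => (bT j : Fin t → E) i) hzli (by
      intro i j
      rw [← hw, hT, bil_apply]
      refine Submodule.sum_mem _ fun k _ => Submodule.sum_mem _ fun l _ => ?_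
      have h1 : ((w j k : E) * M k l * ((e i l : algebraicClosure ℚ E) : E)) =
          (w j k * e i l : algebraicClosure ℚ E) • M k l := by
        rw [hsm]; push_cast; ring
      rw [h1]
      exact V.smul_mem _ (hΛV _ (hM k l))) (by
      intro j
      have h1 := hk (w j)
      rw [← h1]
      refine Finset.sum_congr rfl fun k _ => ?_
      rw [← hw, hT]) (by
      have h1 := bT.linearIndependent
      exact h1.map' (LinearMap.range T).subtype (Submodule.ker_subtype _))
  have hgle := gg_le (bil M) hbe hno' U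
  obtain ⟨Z, hZA, hZ⟩ := slope (bil M) hbe hno' A U hUA hU0
  have hZd : finrank (algebraicClosure ℚ E) Z ≤ mm :=
    (Submodule.finrank_mono (hZA.trans (iSup_le hAst))).trans hAm
  have hgU : gg (bil M) U = t + finrank (algebraicClosure ℚ E) (NN (bil M) U) := by
    unfold gg
    rw [hUt]
  rw [hgU] at hgle hZ
  rw [hUt] at hZ
  obtain ⟨r, hr'⟩ : ∃ r, r = finrank (algebraicClosure ℚ E) (LinearMap.range T) := ⟨_, rfl⟩
  obtain ⟨m, hm⟩ : ∃ m, m = finrank (algebraicClosure ℚ E) (NN (bil M) U) := ⟨_, rfl⟩
  obtain ⟨ζ, hζ⟩ : ∃ ζ, ζ = finrank (algebraicClosure ℚ E) Z := ⟨_, rfl⟩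
  rw [← hr'] at hr hrn
  rw [← hm] at hrn hgle hZ
  rw [← hζ] at hZ hZd
  obtain ⟨t', rfl⟩ : ∃ t', t = t' + 1 := ⟨t - 1, by omega⟩
  obtain ⟨s', rfl⟩ : ∃ s', s = s' + 1 := ⟨s - 1, by omega⟩
  simp only [Nat.add_sub_cancel] at hr ⊢
  have h1 : n - (t' + 1 + m) = r - (t' + 1) := by omega
  have h2 : t' + 1 ≤ r := by omega
  rw [h1] at hZ
  have h3 : r - (t' + 1) ≤ (t' + 1) * t' - (t' + 1) := Nat.sub_le_sub_right hr _
  have h4 := hZ.trans (Nat.mul_le_mul_right ζ h3)
  have h5 : (t' + 1) * t' - (t' + 1) = (t' + 1) * (t' - 1) := by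
    rw [Nat.mul_sub, mul_one]
  rw [h5, mul_comm (n - ζ), mul_assoc] at h4
  have h6 : n - ζ ≤ (t' - 1) * ζ := Nat.le_of_mul_le_mul_left h4 (Nat.succ_pos _)
  have ht'1 : 1 ≤ t' := by
    by_contra h0
    have : t' = 0 := by omega
    rw [this] at hr
    omega
  have h7 : n ≤ t' * ζ := by
    obtain ⟨u, rfl⟩ : ∃ u, t' = u + 1 := ⟨t' - 1, by omega⟩
    simp only [Nat.add_sub_cancel] at h6
    rw [add_mul, one_mul]
    omega
  exact h7.trans (Nat.mul_le_mul (by omega) hZd)

end inst

end Pool.Agent.P8H63.KS
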