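import Pool.Agent.P8H63.KS.Slope

set_option autoImplicit false

/-!
# Shortest representations `ξ = ∑ e_k z_k` with algebraic vectors `e_k`
-/

namespace Pool.Agent.P8H63.KS

open Module

variable {κ E : Type*} [Field κ] [Field E] [Algebra κ E] {n : ℕ}

/-- `ξ` is a combination of `t` vectors of `A` -/
def RepA (A : Submodule κ (Fin n → κ)) (ξ : Fin n → E) (t : ℕ) : Prop :=
  ∃ (z : Fin t → E) (e : Fin t → Fin n → κ), (∀ k, e k ∈ A) ∧ ∀ i, ξ i = ∑ k, e k i • z k

/-- a shortest representation has independent vectors and coefficients -/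
theorem exists_min_rep (A : Submodule κ (Fin n → κ)) (ξ : Fin n → E) (hξ : ξ ≠ 0) {s : ℕ}
    (h : RepA A ξ s) : ∃ t : ℕ, t ≤ s ∧ 1 ≤ t ∧ ∃ (z : Fin t → E) (e : Fin t → Fin n → κ),
      (∀ k, e k ∈ A) ∧ (∀ i, ξ i = ∑ k, e k i • z k) ∧ LinearIndependent κ z ∧ LinearIndependent κ e := by
  classical
  have hex : ∃ t, RepA A ξ t := ⟨s, h⟩
  obtain ⟨t, ht⟩ : ∃ t, t = Nat.find hex := ⟨_, rfl⟩
  obtain ⟨z, e, he, hz⟩ := Nat.find_spec hex
  have hts : Nat.find hex ≤ s := Nat.find_min' hex h
  have hmin : ∀ t', RepA A ξ t' → Nat.find hex ≤ t' := fun t' h' => Nat.find_min' hex h'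
  rw [← ht] at hts hmin
  revert z e
  rw [← ht]
  intro z e he hz
  rcases t with _ | t
  · exfalso
    apply hξ
    funext i
    rw [hz i]
    simp
  refine ⟨t + 1, hts, Nat.succ_le_succ (Nat.zero_le _), z, e, he, hz, ?_, ?_⟩
  · rw [Fintype.linearIndependent_iff]
    intro c hc k₀
    by_contra hk₀
    have h1 : z k₀ = ∑ j : Fin t, (-(c (k₀.succAbove j) / c k₀)) • z (k₀.succAbove j) := by
      rw [Fin.sum_univ_succAbove _ k₀] at hc
      have h2 : c k₀ • z k₀ = -∑ j : Fin t, c (k₀.succAbove j) • z (k₀.succAbove j) :=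
        eq_neg_of_add_eq_zero_left hc
      have h3 : z k₀ = (c k₀)⁻¹ • (c k₀ • z k₀) := by rw [smul_smul, inv_mul_cancel₀ hk₀, one_smul]
      rw [h3, h2, smul_neg, Finset.smul_sum, ← Finset.sum_neg_distrib]
      refine Finset.sum_congr rfl fun j _ => ?_
      rw [smul_smul, ← neg_smul, div_eq_inv_mul]
    have h2 : RepA A ξ t := by
      refine ⟨fun j => z (k₀.succAbove j),
        fun j => e (k₀.succAbove j) + (-(c (k₀.succAbove j) / c k₀)) • e k₀,
        fun j => A.add_mem (he _) (A.smul_mem _ (he _)), fun i => ?_⟩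
      rw [hz i, Fin.sum_univ_succAbove _ k₀, h1, Finset.smul_sum, ← Finset.sum_add_distrib]
      refine Finset.sum_congr rfl fun j _ => ?_
      beta_reduce
      rw [Pi.add_apply, Pi.smul_apply, smul_eq_mul, add_smul, smul_smul, add_comm]
      congr 2
      ring
    have := hmin t h2
    omega
  · rw [Fintype.linearIndependent_iff]
    intro c hc k₀
    by_contra hk₀
    have h1 : e k₀ = ∑ j : Fin t, (-(c (k₀.succAbove j) / c k₀)) • e (k₀.succAbove j) := by
      rw [Fin.sum_univ_succAbove _ k₀] at hc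
      have h2 : c k₀ • e k₀ = -∑ j : Fin t, c (k₀.succAbove j) • e (k₀.succAbove j) :=
        eq_neg_of_add_eq_zero_left hc
      have h3 : e k₀ = (c k₀)⁻¹ • (c k₀ • e k₀) := by rw [smul_smul, inv_mul_cancel₀ hk₀, one_smul]
      rw [h3, h2, smul_neg, Finset.smul_sum, ← Finset.sum_neg_distrib]
      refine Finset.sum_congr rfl fun j _ => ?_
      rw [smul_smul, ← neg_smul, div_eq_inv_mul]
    have h2 : RepA A ξ t := by
      refine ⟨fun j => z (k₀.succAbove j) + (-(c (k₀.succAbove j) / c k₀)) • z k₀,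
        fun j => e (k₀.succAbove j), fun j => he _, fun i => ?_⟩
      have h1i : e k₀ i = ∑ j : Fin t, (-(c (k₀.succAbove j) / c k₀)) * e (k₀.succAbove j) i := by
        rw [h1, Finset.sum_apply]
        refine Finset.sum_congr rfl fun j _ => ?_
        rw [Pi.smul_apply, smul_eq_mul]
      rw [hz i, Fin.sum_univ_succAbove _ k₀, h1i, Finset.sum_smul, ← Finset.sum_add_distrib]
      refine Finset.sum_congr rfl fun j _ => ?_
      rw [smul_add, smul_smul, add_comm]
      congr 2
      ring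
    have := hmin t h2
    omega

end Pool.Agent.P8H63.KS
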