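import Pool.Agent.W332.OK.Abs

set_option autoImplicit false

/-!
# A slope inequality for bilinear maps without rational zeros

`δ(X) = n - dim X - dim X^⊥` is submodular and Galois invariant. A subspace of smallest slope
`δ(X) / dim X` in a given space generates a Galois stable space of the same or smaller slope.
-/

namespace Pool.Agent.P8H63.KS

open Module
open Pool.Agent.W332.OK

variable {κ : Type*} [Field κ] [Algebra ℚ κ] [IsGalois ℚ κ] {n : ℕ}
variable {E : Type*} [AddCommGroup E] [Module κ E]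
  (β : (Fin n → κ) →ₗ[κ] (Fin n → κ) →ₗ[κ] E)
variable (hβ : ∀ (σ : κ ≃ₐ[ℚ] κ) (w v : Fin n → κ), β w v = 0 →
  β (fun i => σ (w i)) (fun i => σ (v i)) = 0)
variable (hR : ∀ w v : Fin n → ℚ, w ≠ 0 → v ≠ 0 →
  β (fun i => algebraMap ℚ κ (w i)) (fun i => algebraMap ℚ κ (v i)) ≠ 0)

include hβ hR

/-- a space of smallest slope -/
theorem exists_min_slope (A U : Submodule κ (Fin n → κ)) (hUA : U ≤ A) (hU : U ≠ ⊥) :
    ∃ X : Submodule κ (Fin n → κ), X ≤ A ∧ X ≠ ⊥ ∧ ∀ Y : Submodule κ (Fin n → κ), Y ≤ A → Y ≠ ⊥ →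
      (n - gg β X) * finrank κ Y ≤ (n - gg β Y) * finrank κ X := by
  classical
  have hpos : ∀ Y : Submodule κ (Fin n → κ), Y ≠ ⊥ → 0 < finrank κ Y := by
    intro Y hY
    rw [Nat.pos_iff_ne_zero, Ne, Submodule.finrank_eq_zero]
    exact hY
  have hle : ∀ Y : Submodule κ (Fin n → κ), finrank κ Y ≤ n := by
    intro Y
    have h := Submodule.finrank_le Y
    rwa [finrank_fin_fun] at h
  let N : Submodule κ (Fin n → κ) → ℕ := fun Y => (n - gg β Y) * (n.factorial / finrank κ Y)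
  have hex : ∃ k, ∃ Y : Submodule κ (Fin n → κ), Y ≤ A ∧ Y ≠ ⊥ ∧ N Y = k := ⟨_, U, hUA, hU, rfl⟩
  obtain ⟨X, hXA, hX, hXN⟩ := Nat.find_spec hex
  refine ⟨X, hXA, hX, fun Y hYA hY => ?_⟩
  have h1 : N X ≤ N Y := by
    rw [hXN]
    exact Nat.find_min' hex ⟨Y, hYA, hY, rfl⟩
  have hdX : finrank κ X ∣ n.factorial := Nat.dvd_factorial (hpos X hX) (hle X)
  have hdY : finrank κ Y ∣ n.factorial := Nat.dvd_factorial (hpos Y hY) (hle Y)
  have h2 := Nat.mul_le_mul_right (finrank κ X * finrank κ Y) h1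
  have e1 : N X * (finrank κ X * finrank κ Y) = ((n - gg β X) * finrank κ Y) * n.factorial := by
    calc N X * (finrank κ X * finrank κ Y) = (n - gg β X) * finrank κ Y *
          (n.factorial / finrank κ X * finrank κ X) := by
          simp only [N]
          ring
      _ = _ := by rw [Nat.div_mul_cancel hdX]
  have e2 : N Y * (finrank κ X * finrank κ Y) = ((n - gg β Y) * finrank κ X) * n.factorial := by
    calc N Y * (finrank κ X * finrank κ Y) = (n - gg β Y) * finrank κ X *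
          (n.factorial / finrank κ Y * finrank κ Y) := by
          simp only [N]
          ring
      _ = _ := by rw [Nat.div_mul_cancel hdY]
  rw [e1, e2] at h2
  exact Nat.le_of_mul_le_mul_right h2 (Nat.factorial_pos n)

omit [IsGalois ℚ κ] hβ hR in
theorem tw_mono (σ : κ ≃ₐ[ℚ] κ) {X Y : Submodule κ (Fin n → κ)} (h : X ≤ Y) : tw σ X ≤ tw σ Y :=
  fun _ hx => h hx

omit [IsGalois ℚ κ] hβ hR in
theorem stable_sup (U : Submodule κ (Fin n → κ)) :
    ∀ σ : κ ≃ₐ[ℚ] κ, ∀ x ∈ (⨆ σ : κ ≃ₐ[ℚ] κ, tw σ U), (fun i => σ (x i)) ∈ ⨆ σ : κ ≃ₐ[ℚ] κ, tw σ U := by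
  intro σ x hx
  have hle : ∀ σ : κ ≃ₐ[ℚ] κ, tw σ U ≤ ⨆ σ : κ ≃ₐ[ℚ] κ, tw σ U :=
    fun σ => le_iSup (fun σ : κ ≃ₐ[ℚ] κ => tw σ U) σ
  have h1 : (⨆ σ : κ ≃ₐ[ℚ] κ, tw σ U) ≤ tw σ.symm (⨆ σ : κ ≃ₐ[ℚ] κ, tw σ U) := by
    apply iSup_le
    intro τ y hy
    rw [mem_tw]
    apply hle (σ * τ)
    rw [mem_tw] at hy ⊢
    have h2 : (fun i => (σ * τ).symm (σ.symm.symm (y i))) = fun i => τ.symm (y i) := by
      funext i
      change τ.symm (σ.symm (σ (y i))) = _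
      rw [AlgEquiv.symm_apply_apply]
    rw [h2]
    exact hy
  exact h1 hx

/-- **The slope inequality.** -/
theorem slope (A U : Submodule κ (Fin n → κ)) (hUA : U ≤ A) (hU : U ≠ ⊥) :
    ∃ Z : Submodule κ (Fin n → κ), Z ≤ (⨆ σ : κ ≃ₐ[ℚ] κ, tw σ A) ∧
      (n - finrank κ Z) * finrank κ U ≤ (n - gg β U) * finrank κ Z := by
  classical
  obtain ⟨X₁, hX₁A, hX₁, hmin⟩ := exists_min_slope β hβ hR A U hUA hU
  have hgle := gg_le β hβ hR
  have hpos : 0 < finrank κ X₁ := by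
    rw [Nat.pos_iff_ne_zero, Ne, Submodule.finrank_eq_zero]
    exact hX₁
  set W : Submodule κ (Fin n → κ) := ⨆ σ : κ ≃ₐ[ℚ] κ, tw σ X₁ with hW
  have hle : ∀ σ : κ ≃ₐ[ℚ] κ, tw σ X₁ ≤ W := fun σ => le_iSup (fun σ : κ ≃ₐ[ℚ] κ => tw σ X₁) σ
  obtain ⟨X, hX, hmax⟩ := (wellFounded_gt (α := Submodule κ (Fin n → κ))).has_min
    {X | (n - gg β X) * finrank κ X₁ ≤ (n - gg β X₁) * finrank κ X ∧ X ≤ W} ⟨⊥, by
      rw [gg_bot, Nat.sub_self, zero_mul]
      exact Nat.zero_le _, bot_le⟩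
  obtain ⟨hX1, hX3⟩ := hX
  have hsub : ∀ σ : κ ≃ₐ[ℚ] κ, tw σ X₁ ≤ X := by
    intro σ
    have h1 := gg_super β X (tw σ X₁)
    have h1' := gg_tw β hβ σ X₁
    have h2 := hgle (X ⊔ tw σ X₁)
    have h3 := hgle (X ⊓ tw σ X₁)
    have h3' := hgle X
    have h3'' := hgle X₁
    have h5 := Submodule.finrank_sup_add_finrank_inf_eq X (tw σ X₁)
    rw [finrank_tw] at h5
    -- the slope of the intersection
    have h6 : (n - gg β X₁) * finrank κ ↥(X ⊓ tw σ X₁) ≤ (n - gg β (X ⊓ tw σ X₁)) * finrank κ X₁ := by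
      by_cases h0 : X ⊓ tw σ X₁ = ⊥
      · rw [h0, finrank_bot, mul_zero]
        exact Nat.zero_le _
      · have h7 := hmin (tw σ.symm (X ⊓ tw σ X₁)) (by
          intro x hx
          have h6 : (fun i => σ (x i)) ∈ X ⊓ tw σ X₁ := hx
          have h7 := mem_tw.1 h6.2
          apply hX₁A
          simpa only [AlgEquiv.symm_apply_apply] using h7) (by
          intro h
          apply h0
          rw [← Submodule.finrank_eq_zero (R := κ)]
          have h8 := finrank_tw σ.symm (X ⊓ tw σ X₁)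
          rw [h, finrank_bot] at h8
          exact h8.symm)
        rwa [finrank_tw, gg_tw β hβ] at h7
    have h8 : (n - gg β (X ⊔ tw σ X₁)) * finrank κ X₁ ≤
        (n - gg β X₁) * finrank κ ↥(X ⊔ tw σ X₁) := by
      obtain ⟨a, ha⟩ : ∃ a, a = n - gg β (X ⊔ tw σ X₁) := ⟨_, rfl⟩
      obtain ⟨b, hb⟩ : ∃ b, b = n - gg β (X ⊓ tw σ X₁) := ⟨_, rfl⟩
      obtain ⟨c, hc⟩ : ∃ c, c = n - gg β X := ⟨_, rfl⟩
      obtain ⟨d, hd⟩ : ∃ d, d = n - gg β X₁ := ⟨_, rfl⟩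
      rw [← hb, ← hd] at h6
      rw [← hc, ← hd] at hX1
      rw [← ha, ← hd]
      have h9 : a + b ≤ c + d := by omega
      obtain ⟨u, hu⟩ : ∃ u, u = finrank κ ↥(X ⊔ tw σ X₁) := ⟨_, rfl⟩
      obtain ⟨v, hv⟩ : ∃ v, v = finrank κ ↥(X ⊓ tw σ X₁) := ⟨_, rfl⟩
      rw [← hv] at h6
      rw [← hu, ← hv] at h5
      rw [← hu]
      have h10 := Nat.mul_le_mul_right (finrank κ X₁) h9
      have h11 : d * (u + v) = d * (finrank κ X + finrank κ X₁) := by rw [h5]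
      nlinarith
    have h9 := hmax (X ⊔ tw σ X₁) ⟨h8, sup_le hX3 (hle σ)⟩
    have h10 : X ⊔ tw σ X₁ = X := by
      by_contra hne
      exact h9 (lt_of_le_of_ne le_sup_left (Ne.symm hne))
    exact sup_eq_left.1 h10
  have hWX : X = W := le_antisymm hX3 (iSup_le hsub)
  have hWne : W ≠ ⊥ := by
    intro h
    have h1 := hle 1
    rw [h, le_bot_iff] at h1
    have h2 := finrank_tw (1 : κ ≃ₐ[ℚ] κ) X₁
    rw [h1, finrank_bot] at h2
    omega
  have hNW := stab_full β hβ hR W hWne (stable_sup X₁)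
  have hgW : gg β W = finrank κ W := by
    unfold gg
    rw [hNW, finrank_bot, add_zero]
  refine ⟨W, iSup_mono (fun σ => tw_mono σ hX₁A), ?_⟩
  rw [hWX, hgW] at hX1
  have h1 := hmin U hUA hU
  have h2 : ((n - finrank κ W) * finrank κ U) * finrank κ X₁ ≤ ((n - gg β U) * finrank κ W) * finrank κ X₁ := by
    calc ((n - finrank κ W) * finrank κ U) * finrank κ X₁
        = ((n - finrank κ W) * finrank κ X₁) * finrank κ U := by ring
      _ ≤ ((n - gg β X₁) * finrank κ W) * finrank κ U := Nat.mul_le_mul_right _ hX1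
      _ = ((n - gg β X₁) * finrank κ U) * finrank κ W := by ring
      _ ≤ ((n - gg β U) * finrank κ X₁) * finrank κ W := Nat.mul_le_mul_right _ h1
      _ = _ := by ring
  exact Nat.le_of_mul_le_mul_right h2 hpos

end Pool.Agent.P8H63.KS
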